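import Mathlib

set_option autoImplicit false

namespace Pool.Agent.Results.MP_351560_co.ThreeFactors

open SimpleGraph

/-- The complete `r`-partite graph `K(n₀, …, n_{r-1})`: its vertex set is the disjoint union of
parts of sizes `n₀, …, n_{r-1}`, and two vertices are adjacent exactly when they lie in different
parts. -/
abbrev K {r : ℕ} (n : Fin r → ℕ) : SimpleGraph (Σ i : Fin r, Fin (n i)) :=
  completeMultipartiteGraph fun i => Fin (n i)

/-- The spanning subgraphs `F 0, …, F (t - 1)` form an isomorphic factorisation of `G` into `t`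
factors: their edge sets partition the edge set of `G`, and they are pairwise isomorphic. -/
def IsIsoFactorisation {V : Type} (G : SimpleGraph V) (t : ℕ) (F : Fin t → SimpleGraph V) : Prop :=
  (∀ e, e ∈ G.edgeSet ↔ ∃ k, e ∈ (F k).edgeSet) ∧
  (∀ k l, k ≠ l → Disjoint (F k).edgeSet (F l).edgeSet) ∧
  ∀ k l, Nonempty (F k ≃g F l)

/-- `G` is divisible by `t`: it has an isomorphic factorisation into `t` factors. -/
def Divisible {V : Type} (G : SimpleGraph V) (t : ℕ) : Prop :=
  ∃ F : Fin t → SimpleGraph V, IsIsoFactorisation G t F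

/-- The Divisibility Condition suffices for `K(n₀, …, n_{r-1})` and `t`: if `t` divides the number
of edges, then the graph is divisible by `t`. -/
def Suffices {r : ℕ} (n : Fin r → ℕ) (t : ℕ) : Prop :=
  t ∣ (K n).edgeSet.ncard → Divisible (K n) t

/-- Finite data describing factorisations of an infinite family of complete tripartite graphs:
sizes of the fixed parts, which parts are extended by blocks of three vertices, offsets, number of
vertices, colour matrix in base 4, and three vertex maps in base 64. -/
structure Fam where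
  R : List ℕ
  E : List Bool
  o : List ℕ
  m : ℕ
  M : ℕ
  P : List ℕ

namespace Fam

variable (f : Fam)

def r (i : Fin 3) : ℕ := f.R.getD i 0

def e (i : Fin 3) : Bool := f.E.getD i false

def S (i : Fin 3) : ℕ := f.r i + if f.e i then 3 else 0

def ix (u : Fin 3 × ℕ) : ℕ := f.o.getD u.1 0 + u.2

def col (u v : Fin 3 × ℕ) : ℕ := f.M / 4 ^ (f.m * f.ix u + f.ix v) % 4

def code (k : Fin 3) (u : Fin 3 × ℕ) : ℕ := f.P.getD k 0 / 64 ^ f.ix u % 64

def psi (k : Fin 3) (u : Fin 3 × ℕ) : Fin 3 × ℕ :=
  if u.2 < f.r u.1 then (Fin.ofNat 3 (f.code k u / 16), f.code k u % 16)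
  else (u.1, f.r u.1 + (u.2 - f.r u.1 + k) % 3)

def G1 : Prop :=
  ∀ i j : Fin 3, ∀ x < f.S i, ∀ y < f.S j, f.col (i, x) (j, y) = f.col (j, y) (i, x)

def G2 : Prop := ∀ i j : Fin 3, i ≠ j → ∀ x < f.S i, ∀ y < f.S j, f.col (i, x) (j, y) < 3

def G3 : Prop :=
  ∀ k : Fin 3, ∀ i : Fin 3, ∀ x < f.r i, (f.psi k (i, x)).2 < f.r (f.psi k (i, x)).1

def G4 : Prop :=
  ∀ k : Fin 3, ∀ i j : Fin 3, ∀ x < f.r i, ∀ y < f.r j,
    f.psi k (i, x) = f.psi k (j, y) → (i, x) = (j, y)

def G5 : Prop :=
  ∀ k : Fin 3, ∀ i j : Fin 3, ∀ x < f.S i, ∀ y < f.S j,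
    (i ≠ j ∧ f.col (i, x) (j, y) = 0) ↔
    ((f.psi k (i, x)).1 ≠ (f.psi k (j, y)).1 ∧ f.col (f.psi k (i, x)) (f.psi k (j, y)) = k)

instance : Decidable f.G1 := by unfold G1; infer_instance

instance : Decidable f.G2 := by unfold G2; infer_instance

instance : Decidable f.G3 := by unfold G3; infer_instance

instance : Decidable f.G4 := by unfold G4; infer_instance

instance : Decidable f.G5 := by unfold G5; infer_instance

def Good : Prop := f.G1 ∧ f.G2 ∧ f.G3 ∧ f.G4 ∧ f.G5

instance : Decidable f.Good := by unfold Good; infer_instance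

end Fam

def fams : List Fam := [
  ⟨[0, 0, 0], [true, true, true], [0, 3, 6], 9,
    5806868592200732306061035431299797794531298771007,
    [0,
      0,
      0]⟩,
  ⟨[0, 0, 1], [true, true, true], [0, 3, 6], 10,
    1604248512019832820964486371520417189193374421207907384164415,
    [2199023255552,
      2199023255552,
      2199023255552]⟩,
  ⟨[0, 0, 2], [true, true, true], [0, 3, 6], 11,
    7061473919403342676699681528044981029734469991445356946923792791858664831,
    [147334558121984,
      143005231087616,
      143005231087616]⟩,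
  ⟨[1, 1, 1], [false, false, false], [0, 1, 2], 3,
    205671,
    [132096,
      1056,
      131088]⟩,
  ⟨[1, 1, 4], [false, false, false], [0, 1, 2], 6,
    4714294624275078103635,
    [38160172032,
      34955921472,
      545666082]⟩,
  ⟨[2, 2, 2], [false, false, false], [0, 2, 4], 6,
    4541297095028601124959,
    [35974873152,
      1359086625,
      1631655936]⟩,
  ⟨[2, 2, 2], [false, false, true], [0, 2, 4], 9,
    5840364453217040400528664089655829679455034317103,
    [35974873152,
      17733522528,
      1631847456]⟩,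
  ⟨[2, 2, 5], [false, false, false], [0, 2, 4], 9,
    5842639120975423330707511374175360254441030435999,
    [10289403226554432,
      9449445863528448,
      9009505182750864]⟩,
  ⟨[2, 2, 5], [false, false, true], [0, 2, 4], 12,
    497316626070733002017757524798757902427820720416651884184884361034760353726937950196271,
    [10289403226554432,
      9999267981042705,
      9167969829658704]⟩,
  ⟨[2, 5, 5], [false, false, false], [0, 2, 7], 12,
    497127060507151388602052565445109805742689386509252482316508683808746134300132079132719,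
    [2697305319631554412608,
      1220944230893414917395,
      2435299412855878988820]⟩,
  ⟨[1, 4, 4], [false, false, false], [0, 1, 5], 9,
    5832224634600834365203919212314030067392407774211,
    [10003460192277504,
      5209591642063971,
      4786398000195666]⟩,
  ⟨[1, 4, 7], [false, true, true], [0, 1, 8], 18,
    1167984322364608147077135442199091825879688108823226960443751121672151755811105864463748569564440899003585367023161151868508488834909435896722853822544515205646844445540274353457779224415780252331,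
    [746382089697496991676306432,
      629730339313288246120752147,
      707689156343967602624771217]⟩,
  ⟨[4, 4, 4], [false, false, false], [0, 4, 8], 12,
    495423460515971615620978538293836117408995201234784443195095471244584657629290062042623,
    [2622347068644394803264,
      221379592098555172002,
      73845946404428982483]⟩,
  ⟨[2, 5, 8], [false, true, true], [0, 2, 10], 21,
    32244535898165095411006151699080868590129760684679751282529433577667125092865510310154764030104178979948455020185872163289305199843301970611153707950371571159702710354698278268627665389915856374843103521353585838138500708237295213438801205237044704859064901671404703,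
    [200810674675004734311461661507648,
      165112740584142209536849180968102,
      178859484134078941310811719939232]⟩,
  ⟨[5, 5, 5], [false, false, false], [0, 5, 10], 15,
    2905462552822774349949578915205572189322546947870574821028148596178353857424354376169025226267576996046617719379335102636966875165099007,
    [707082405709494199989837888,
      78287465998511079741531216,
      392684935414794448452593760]⟩,
  ⟨[7, 7, 7], [true, true, true], [0, 10, 20], 30,
    71448299612655708714098366711236290106991812743899799660802413056614820093184566961666715780745742620665546645618168451572311144298074139678760884533296075375766600540255428536121659828042612973779131801049849172103351852422763973470363155914283556449107647537480268010218065772355835986896794565294466356044908202619137061917605095688284500531717905668855926067888847435293783238349695883169450009734939483840593193536794964970977628487898861201122080162102579455378545583051629863340205062350172992970723931523754333372870806009992342142975,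
    [3524689763801664924923326628430248264251541823552,
      2923841129311744004376129509390171004054634240131,
      3227865816259147705391845660271709856342892111940]⟩,
  ⟨[8, 8, 8], [true, true, true], [0, 11, 22], 33,
    43987620346988600081369680199830686195735134712668380904577443342977472852456470654856986717765810312408684623457251695119759584725849799119200561983751606067498093616348667943016380240558830758577227326024076195876900573699104397265938925639293689815096720606241080466559613908709877110942503742248788732569098632567743741689456645309465865655325961252744924651027353495093169552219559400269898215723754862236342186001870195497426897213405703670509235516758461092325401926971152979452044269955834182524536772815276008190243522140700471197266497988556871886093353649899042227380519383681671641965534614331862693439569132158597295602107801155593609834135551,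
    [948301599487682642594933335181582796377311876165148736,
      768717852408695382352786968751441945405169462653776963,
      822600944713994685828285180558141852683028147631294533]⟩,
  ⟨[4, 4, 7], [false, false, true], [0, 4, 8], 18,
    1167984287572945057753399180323316891068003487222390926032417098218847529237296665375482974950925981897242976532711075372684791842223362177984392494415602944061141505460665944272524429989250401791,
    [746382089697581809709883456,
      30986142664096801113846864,
      9853482289590653025928272]⟩,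
  ⟨[1, 4, 4], [true, false, true], [0, 4, 8], 15,
    2907294101525481628058262885493146580184979330372150246973453989469444116061968839224517816215537049097311201528173001321484524776407807,
    [2622347068644394008576,
      2531302289644745392161,
      2545948281555688357923]⟩,
  ⟨[2, 5, 8], [true, false, true], [0, 5, 10], 21,
    32244535564483832295454203992794277627697006046527919063440199289895215289681041606877155216762988895561559179419907906147937101828539682291329819728864388236933522787021021011130689808351553776866657814744388298984608393956069142406901013867362541085083579050535935,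
    [200810674675005100026411559682112,
      180130906559250554441811363889233,
      195498682754760151337848314791184]⟩]

theorem fams_good : ∀ f ∈ fams, f.Good := by decide +kernel

/-- reduction of a vertex modulo the blocks -/
def red (R x : ℕ) : ℕ := if x < R then x else R + (x - R) % 3

section fam

variable {f : Fam} {a : Fin 3 → ℕ}

abbrev sz (f : Fam) (a : Fin 3 → ℕ) (i : Fin 3) : ℕ := f.r i + 3 * a i

abbrev VT (f : Fam) (a : Fin 3 → ℕ) : Type := Σ i : Fin 3, Fin (sz f a i)

def pr (v : VT f a) : Fin 3 × ℕ := (v.1, (v.2 : ℕ))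

def rdp (f : Fam) (u : Fin 3 × ℕ) : Fin 3 × ℕ := (u.1, red (f.r u.1) u.2)

theorem pr_lt (v : VT f a) : (pr v).2 < f.r (pr v).1 + 3 * a (pr v).1 := v.2.isLt

theorem rd_lt (ha : ∀ i, f.e i = false → a i = 0) (v : VT f a) :
    (rdp f (pr v)).2 < f.S (pr v).1 := by
  have hx := pr_lt v
  generalize pr v = p at hx ⊢
  obtain ⟨i, x⟩ := p
  simp only [rdp, red, Fam.S] at hx ⊢
  cases h : f.e i
  · rw [ha i h] at hx
    have hx' : x < f.r i := by omega
    simp [hx']
  · simp only [if_true]
    split_ifs <;> omega

theorem pr_inj {u v : VT f a} (h : pr u = pr v) : u = v := by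
  obtain ⟨i, x⟩ := u
  obtain ⟨j, y⟩ := v
  simp only [pr, Prod.mk.injEq] at h
  obtain ⟨h1, h2⟩ := h
  subst h1
  have : x = y := Fin.ext h2
  rw [this]

def Fk (f : Fam) (a : Fin 3 → ℕ) (hg : f.Good) (ha : ∀ i, f.e i = false → a i = 0) (k : Fin 3) :
    SimpleGraph (VT f a) :=
  SimpleGraph.mk (fun u v => (pr u).1 ≠ (pr v).1 ∧ f.col (rdp f (pr u)) (rdp f (pr v)) = k)
    ⟨by
      rintro u v ⟨h1, h2⟩
      refine ⟨h1.symm, ?_⟩
      rw [← h2]
      exact (hg.1 (pr u).1 (pr v).1 _ (rd_lt ha u) _ (rd_lt ha v)).symm⟩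
    ⟨fun u h => h.1 rfl⟩

def phi (f : Fam) (a : Fin 3 → ℕ) (hg : f.Good) (k : Fin 3) (v : VT f a) : VT f a :=
  if h : (pr v).2 < f.r (pr v).1 then
    ⟨(f.psi k (pr v)).1, ⟨(f.psi k (pr v)).2, by
      have := hg.2.2.1 k (pr v).1 (pr v).2 h
      simp only [sz]
      exact lt_of_lt_of_le this (Nat.le_add_right _ _)⟩⟩
  else
    ⟨(pr v).1, ⟨f.r (pr v).1 + 3 * (((pr v).2 - f.r (pr v).1) / 3) +
      (((pr v).2 - f.r (pr v).1) % 3 + k) % 3, by
      have := pr_lt v
      simp only [sz]
      omega⟩⟩

theorem phi_pos (hg : f.Good) (k : Fin 3) (v : VT f a) (h : (pr v).2 < f.r (pr v).1) :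
    pr (phi f a hg k v) = f.psi k (pr v) := by
  unfold phi
  rw [dif_pos h]
  rfl

theorem phi_neg (hg : f.Good) (k : Fin 3) (v : VT f a) (h : ¬ (pr v).2 < f.r (pr v).1) :
    pr (phi f a hg k v) = ((pr v).1, f.r (pr v).1 + 3 * (((pr v).2 - f.r (pr v).1) / 3) +
      (((pr v).2 - f.r (pr v).1) % 3 + k) % 3) := by
  unfold phi
  rw [dif_neg h]
  rfl

theorem phi_inj (hg : f.Good) (k : Fin 3) : Function.Injective (phi f a hg k) := by
  intro u v huv
  have e1 : pr (phi f a hg k u) = pr (phi f a hg k v) := by rw [huv]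
  apply pr_inj
  have hkl := k.isLt
  by_cases hu : (pr u).2 < f.r (pr u).1 <;> by_cases hv : (pr v).2 < f.r (pr v).1
  · rw [phi_pos hg k u hu, phi_pos hg k v hv] at e1
    exact hg.2.2.2.1 k (pr u).1 (pr v).1 _ hu _ hv e1
  · exfalso
    rw [phi_pos hg k u hu, phi_neg hg k v hv] at e1
    have h1 := hg.2.2.1 k (pr u).1 _ hu
    rw [Prod.mk.eta, e1] at h1
    simp only at h1
    omega
  · exfalso
    rw [phi_neg hg k u hu, phi_pos hg k v hv] at e1
    have h1 := hg.2.2.1 k (pr v).1 _ hv
    rw [Prod.mk.eta, ← e1] at h1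
    simp only at h1
    omega
  · rw [phi_neg hg k u hu, phi_neg hg k v hv] at e1
    generalize pr u = p at *
    generalize pr v = q at *
    obtain ⟨i, x⟩ := p
    obtain ⟨j, y⟩ := q
    simp only [Prod.mk.injEq] at e1 hu hv ⊢
    obtain ⟨rfl, e2⟩ := e1
    exact ⟨rfl, by omega⟩

theorem rd_phi (hg : f.Good) (k : Fin 3) (v : VT f a) :
    rdp f (pr (phi f a hg k v)) = f.psi k (rdp f (pr v)) := by
  have hkl := k.isLt
  by_cases h : (pr v).2 < f.r (pr v).1
  · rw [phi_pos hg k v h]
    have h1 := hg.2.2.1 k (pr v).1 _ h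
    rw [Prod.mk.eta] at h1
    have h2 : rdp f (pr v) = pr v := by
      unfold rdp red
      rw [if_pos h]
    rw [h2]
    unfold rdp red
    rw [if_pos h1]
  · rw [phi_neg hg k v h]
    generalize pr v = p at *
    obtain ⟨i, x⟩ := p
    simp only at h
    have h3 : ¬ f.r i + (x - f.r i) % 3 < f.r i := by omega
    have h4 : ¬ f.r i + 3 * ((x - f.r i) / 3) + ((x - f.r i) % 3 + k) % 3 < f.r i := by omega
    simp only [rdp, red, if_neg h, if_neg h4, Fam.psi, if_neg h3, Prod.mk.injEq, true_and]
    omega

noncomputable def phiE (f : Fam) (a : Fin 3 → ℕ) (hg : f.Good) (k : Fin 3) : VT f a ≃ VT f a :=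
  Equiv.ofBijective (phi f a hg k) (Finite.injective_iff_bijective.1 (phi_inj hg k))

theorem fk_iso (hg : f.Good) (ha : ∀ i, f.e i = false → a i = 0) (k : Fin 3) :
    Nonempty (Fk f a hg ha 0 ≃g Fk f a hg ha k) := by
  refine ⟨⟨phiE f a hg k, ?_⟩⟩
  intro u v
  have h := hg.2.2.2.2 k (pr u).1 (pr v).1 _ (rd_lt ha u) _ (rd_lt ha v)
  have eu : (((pr u).1, (rdp f (pr u)).2) : Fin 3 × ℕ) = rdp f (pr u) := rfl
  have ev : (((pr v).1, (rdp f (pr v)).2) : Fin 3 × ℕ) = rdp f (pr v) := rfl
  rw [eu, ev, ← rd_phi hg k u, ← rd_phi hg k v] at h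
  exact h.symm

theorem fam_divisible (hg : f.Good) (ha : ∀ i, f.e i = false → a i = 0) :
    Divisible (K (sz f a)) 3 := by
  refine ⟨Fk f a hg ha, ?_, ?_, ?_⟩
  · intro e
    induction e using Sym2.ind with
    | _ u v =>
      simp only [SimpleGraph.mem_edgeSet]
      constructor
      · intro h
        have h' : u.1 ≠ v.1 := by simpa using h
        have := hg.2.1 (pr u).1 (pr v).1 h' _ (rd_lt ha u) _ (rd_lt ha v)
        exact ⟨⟨_, this⟩, h', rfl⟩
      · rintro ⟨k, h1, -⟩
        exact h1
  · intro k l hkl
    rw [Set.disjoint_left]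
    intro e
    induction e using Sym2.ind with
    | _ u v =>
      simp only [SimpleGraph.mem_edgeSet]
      rintro ⟨-, h1⟩ ⟨-, h2⟩
      exact hkl (Fin.ext (h1.symm.trans h2))
  · intro k l
    obtain ⟨e1⟩ := fk_iso hg ha k
    obtain ⟨e2⟩ := fk_iso hg ha l
    exact ⟨e1.symm.trans e2⟩

end fam

theorem divisible_of_iso {V W : Type} {G : SimpleGraph V} {H : SimpleGraph W} {t : ℕ}
    (e : G ≃g H) (h : Divisible G t) : Divisible H t := by
  obtain ⟨F, h1, h2, h3⟩ := h
  refine ⟨fun k => (F k).comap e.symm, ?_, ?_, ?_⟩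
  · intro x
    induction x using Sym2.ind with
    | _ u v =>
      have := h1 s(e.symm u, e.symm v)
      simp only [SimpleGraph.mem_edgeSet] at this ⊢
      rw [← e.symm.map_adj_iff, this]
      rfl
  · intro k l hkl
    rw [Set.disjoint_left]
    intro x
    induction x using Sym2.ind with
    | _ u v =>
      intro hk hl
      have hk' : s(e.symm u, e.symm v) ∈ (F k).edgeSet := hk
      have hl' : s(e.symm u, e.symm v) ∈ (F l).edgeSet := hl
      exact Set.disjoint_left.1 (h2 k l hkl) hk' hl'
  · intro k l
    obtain ⟨ψ⟩ := h3 k l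
    refine ⟨⟨(e.symm.toEquiv.trans ψ.toEquiv).trans e.toEquiv, ?_⟩⟩
    intro u v
    simp [SimpleGraph.comap_adj, ψ.map_adj_iff]

theorem divisible_perm (n : Fin 3 → ℕ) (s : Fin 3 → Fin 3) (hs : Function.Injective s)
    (h : Divisible (K fun i => n (s i)) 3) : Divisible (K n) 3 := by
  let σ : Fin 3 ≃ Fin 3 := Equiv.ofBijective s (Finite.injective_iff_bijective.1 hs)
  refine divisible_of_iso ⟨Equiv.sigmaCongrLeft (β := fun i => Fin (n i)) σ, ?_⟩ h
  intro u v
  obtain ⟨i, x⟩ := u
  obtain ⟨j, y⟩ := v
  change s i ≠ s j ↔ i ≠ j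
  exact not_congr hs.eq_iff

def perms : List (Fin 3 → Fin 3) := [
  ![0, 1, 2], ![0, 2, 1], ![1, 0, 2], ![1, 2, 0], ![2, 0, 1], ![2, 1, 0]]

theorem perms_inj : ∀ s ∈ perms, Function.Injective s := by decide +kernel

def Fits (f : Fam) (s : Fin 3 → Fin 3) (b : Fin 3 → ℕ) : Prop :=
  ∀ i : Fin 3, (f.e i = true ∧ f.r i ≤ b (s i) ∧ (b (s i) - f.r i) % 3 = 0) ∨
    (f.e i = false ∧ b (s i) = f.r i ∧ b (s i) ≤ 5)

instance (f : Fam) (s : Fin 3 → Fin 3) (b : Fin 3 → ℕ) : Decidable (Fits f s b) := by
  unfold Fits
  infer_instance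

theorem cover : ∀ b0 b1 b2 : Fin 8,
    ((b0 + 1) * (b1 + 1) + (b0 + 1) * (b2 + 1) + (b1 + 1) * (b2 + 1) : ℕ) % 3 = 0 →
    ¬ ((b0 : ℕ) = 0 ∧ (b1 : ℕ) = 0 ∧ (b2 : ℕ) = 6) → ¬ ((b0 : ℕ) = 0 ∧ (b1 : ℕ) = 6 ∧ (b2 : ℕ) = 0) →
    ¬ ((b0 : ℕ) = 6 ∧ (b1 : ℕ) = 0 ∧ (b2 : ℕ) = 0) →
    ∃ f ∈ fams, ∃ s ∈ perms,
      Fits f s ![(b0 + 1 : ℕ), (b1 + 1 : ℕ), (b2 + 1 : ℕ)] := by
  decide +kernel

/-- number of edges of the complete tripartite graph -/
theorem card_edges (n : Fin 3 → ℕ) : (K n).edgeSet.ncard =
    n 0 * n 1 + n 0 * n 2 + n 1 * n 2 := by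
  classical
  have h1 : (K n).edgeSet.ncard = (K n).edgeFinset.card := by
    rw [Set.ncard_eq_toFinset_card']
    rfl
  have h2 := (K n).sum_degrees_eq_twice_card_edges
  have h3 : ∀ v : (Σ i : Fin 3, Fin (n i)), (K n).degree v =
      ∑ j : Fin 3, if v.1 ≠ j then n j else 0 := by
    intro v
    have : (K n).neighborFinset v = Finset.univ.filter fun w => v.1 ≠ w.1 := by
      ext w
      simp
    rw [← SimpleGraph.card_neighborFinset_eq_degree, this, Finset.card_filter,
      Fintype.sum_sigma]
    refine Finset.sum_congr rfl fun j _ => ?_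
    by_cases hj : v.1 ≠ j
    · simp [hj]
    · simp [hj]
  rw [Finset.sum_congr rfl fun v _ => h3 v, Fintype.sum_sigma] at h2
  simp only [Fin.sum_univ_three] at h2
  simp [Fin.ext_iff] at h2
  rw [h1]
  nlinarith [h2]

theorem suff (n : Fin 3 → ℕ) (hn : ∀ i, 1 ≤ n i)
    (hx : ¬ ∃ i, 7 ≤ n i ∧ n i % 3 = 1 ∧ ∀ j, j ≠ i → n j = 1) : Suffices n 3 := by
  intro hd
  rw [card_edges] at hd
  obtain ⟨b, hb⟩ : ∃ b : Fin 3 → ℕ, ∀ i, 1 ≤ b i ∧ b i ≤ 8 ∧ b i ≤ n i ∧ (n i - b i) % 3 = 0 ∧
      (b i ≤ 5 → n i = b i) := by
    refine ⟨fun i => if n i ≤ 8 then n i else 6 + n i % 3, fun i => ?_⟩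
    have := hn i
    simp only
    split_ifs <;> omega
  have hmod : ∀ i, n i % 3 = b i % 3 := fun i => by
    have := hb i
    omega
  have hd' : (b 0 * b 1 + b 0 * b 2 + b 1 * b 2) % 3 = 0 := by
    have h0 : (n 0 * n 1 + n 0 * n 2 + n 1 * n 2) % 3 = 0 :=
      Nat.mod_eq_zero_of_dvd hd
    rw [← h0]
    have m : ∀ i j, b i * b j ≡ n i * n j [MOD 3] := fun i j =>
      Nat.ModEq.mul (hmod i).symm (hmod j).symm
    exact ((m 0 1).add (m 0 2)).add (m 1 2)
  have hb0 := hb 0
  have hb1 := hb 1
  have hb2 := hb 2
  obtain ⟨f, hf, s, hs, hfit⟩ := cover ⟨b 0 - 1, by omega⟩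
    ⟨b 1 - 1, by omega⟩ ⟨b 2 - 1, by omega⟩ (by
      simp only
      rw [Nat.sub_add_cancel (hb 0).1, Nat.sub_add_cancel (hb 1).1, Nat.sub_add_cancel (hb 2).1]
      exact hd')
    (by
      rintro ⟨e0, e1, e2⟩
      simp only at e0 e1 e2
      refine hx ⟨2, by omega, by omega, ?_⟩
      intro j hj
      fin_cases j
      · show n 0 = 1
        omega
      · show n 1 = 1
        omega
      · exact absurd rfl hj)
    (by
      rintro ⟨e0, e1, e2⟩
      simp only at e0 e1 e2
      refine hx ⟨1, by omega, by omega, ?_⟩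
      intro j hj
      fin_cases j
      · show n 0 = 1
        omega
      · exact absurd rfl hj
      · show n 2 = 1
        omega)
    (by
      rintro ⟨e0, e1, e2⟩
      simp only at e0 e1 e2
      refine hx ⟨0, by omega, by omega, ?_⟩
      intro j hj
      fin_cases j
      · exact absurd rfl hj
      · show n 1 = 1
        omega
      · show n 2 = 1
        omega)
  have hbb : (![b 0 - 1 + 1, b 1 - 1 + 1, b 2 - 1 + 1] : Fin 3 → ℕ) = b := by
    funext i
    fin_cases i
    · exact Nat.sub_add_cancel (hb 0).1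
    · exact Nat.sub_add_cancel (hb 1).1
    · exact Nat.sub_add_cancel (hb 2).1
  simp only at hfit
  rw [hbb] at hfit
  apply divisible_perm n s (perms_inj s hs)
  have hsz : (fun i => n (s i)) = sz f (fun i => (n (s i) - f.r i) / 3) := by
    funext i
    have h1 := hb (s i)
    simp only [sz]
    rcases hfit i with ⟨-, h2, h3⟩ | ⟨-, h2, h3⟩
    · omega
    · have := h1.2.2.2.2 h3
      omega
  have gen : ∀ m : Fin 3 → ℕ, m = (fun i => n (s i)) → Divisible (K m) 3 →
      Divisible (K fun i => n (s i)) 3 := by
    intro m hm h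
    subst hm
    exact h
  refine gen _ hsz.symm (fam_divisible (fams_good f hf) ?_)
  intro i hi
  rcases hfit i with ⟨h2, -⟩ | ⟨-, h2, h3⟩
  · rw [hi] at h2; exact absurd h2 (by decide)
  · have := (hb (s i)).2.2.2.2 h3
    omega

open Classical in
/-- degree as a sum -/
noncomputable def dg {V : Type} [Fintype V] (G : SimpleGraph V) (x : V) : ℕ :=
  ∑ y, if G.Adj x y then 1 else 0

theorem dg_iso {V : Type} [Fintype V] {G H : SimpleGraph V} (φ : G ≃g H) (x : V) :
    dg H (φ x) = dg G x := by
  classical
  unfold dg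
  rw [← φ.toEquiv.sum_comp (fun y => if H.Adj (φ x) y then 1 else 0)]
  refine Finset.sum_congr rfl fun y _ => ?_
  have h : H.Adj (φ x) (φ.toEquiv y) ↔ G.Adj x y := φ.map_adj_iff
  by_cases hh : G.Adj x y
  · rw [if_pos hh, if_pos (h.2 hh)]
  · rw [if_neg hh, if_neg (fun h' => hh (h.1 h'))]

theorem core {V : Type} [Fintype V] (u v : V) (huv : u ≠ v) (k : ℕ) (hk : 2 ≤ k)
    (hcard : Fintype.card V = 3 * k + 3) (F : Fin 3 → SimpleGraph V)
    (hadj : ∀ x y, (∃ j, (F j).Adj x y) ↔ x ≠ y ∧ (x = u ∨ x = v ∨ y = u ∨ y = v))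
    (hdis : ∀ i j, i ≠ j → ∀ x y, (F i).Adj x y → ¬ (F j).Adj x y)
    (hiso : ∀ i j, Nonempty (F i ≃g F j)) : False := by
  classical
  set W : Finset V := (Finset.univ.erase u).erase v with hW
  have hmemW : ∀ x, x ∈ W ↔ x ≠ v ∧ x ≠ u := by
    intro x
    rw [hW, Finset.mem_erase, Finset.mem_erase]
    constructor
    · rintro ⟨h1, h2, -⟩
      exact ⟨h1, h2⟩
    · rintro ⟨h1, h2⟩
      exact ⟨h1, h2, Finset.mem_univ _⟩
  have hsplit : ∀ f : V → ℕ, ∑ x, f x = f u + f v + ∑ x ∈ W, f x := by
    intro f
    have e1 := Finset.add_sum_erase Finset.univ f (Finset.mem_univ u)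
    have hv : v ∈ Finset.univ.erase u := Finset.mem_erase.2 ⟨huv.symm, Finset.mem_univ _⟩
    have e2 := Finset.add_sum_erase (Finset.univ.erase u) f hv
    rw [hW, ← e1, ← e2]
    ring
  have hWc : W.card = 3 * k + 1 := by
    have hv : v ∈ Finset.univ.erase u := Finset.mem_erase.2 ⟨huv.symm, Finset.mem_univ _⟩
    rw [hW, Finset.card_erase_of_mem hv, Finset.card_erase_of_mem (Finset.mem_univ _),
      Finset.card_univ, hcard]
    omega
  let A : Fin 3 → ℕ := fun j => ∑ y ∈ W, if (F j).Adj u y then 1 else 0
  let B : Fin 3 → ℕ := fun j => ∑ y ∈ W, if (F j).Adj v y then 1 else 0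
  let I : Fin 3 → ℕ := fun j => if (F j).Adj u v then 1 else 0
  have hone : ∀ x y, x ≠ y → (x = u ∨ x = v ∨ y = u ∨ y = v) →
      ∑ j, (if (F j).Adj x y then 1 else 0) = 1 := by
    intro x y hxy h
    obtain ⟨j, hj⟩ := (hadj x y).2 ⟨hxy, h⟩
    rw [Finset.sum_eq_single j]
    · rw [if_pos hj]
    · intro i _ hi
      rw [if_neg]
      exact hdis j i (Ne.symm hi) x y hj
    · intro h'
      exact absurd (Finset.mem_univ _) h'
  have hAs : A 0 + A 1 + A 2 = 3 * k + 1 := by
    have e : ∑ j, A j = ∑ y ∈ W, ∑ j, (if (F j).Adj u y then 1 else 0) := Finset.sum_comm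
    rw [Fin.sum_univ_three] at e
    rw [e, ← hWc, Finset.card_eq_sum_ones]
    refine Finset.sum_congr rfl fun y hy => ?_
    exact hone u y (Ne.symm ((hmemW y).1 hy).2) (Or.inl rfl)
  have hBs : B 0 + B 1 + B 2 = 3 * k + 1 := by
    have e : ∑ j, B j = ∑ y ∈ W, ∑ j, (if (F j).Adj v y then 1 else 0) := Finset.sum_comm
    rw [Fin.sum_univ_three] at e
    rw [e, ← hWc, Finset.card_eq_sum_ones]
    refine Finset.sum_congr rfl fun y hy => ?_
    exact hone v y (Ne.symm ((hmemW y).1 hy).1) (Or.inr (Or.inl rfl))
  have hIs : I 0 + I 1 + I 2 = 1 := by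
    have e := hone u v huv (Or.inl rfl)
    rw [Fin.sum_univ_three] at e
    exact e
  have hnoW : ∀ j, ∀ x ∈ W, ∀ y ∈ W, ¬ (F j).Adj x y := by
    intro j x hx y hy h
    have h1 := ((hadj x y).1 ⟨j, h⟩).2
    have h2 := (hmemW x).1 hx
    have h3 := (hmemW y).1 hy
    rcases h1 with h | h | h | h
    · exact h2.2 h
    · exact h2.1 h
    · exact h3.2 h
    · exact h3.1 h
  have hdu : ∀ j, dg (F j) u = A j + I j := by
    intro j
    unfold dg
    rw [hsplit, if_neg (F j).irrefl]
    show 0 + I j + A j = A j + I j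
    omega
  have hdv : ∀ j, dg (F j) v = B j + I j := by
    intro j
    unfold dg
    rw [hsplit, if_neg ((F j).irrefl (v := v))]
    have e : (if (F j).Adj v u then 1 else 0) = I j := by
      show _ = if (F j).Adj u v then 1 else 0
      rw [(F j).adj_comm]
    rw [e]
    show I j + 0 + B j = B j + I j
    omega
  have hdw : ∀ j, ∀ x ∈ W, dg (F j) x =
      (if (F j).Adj u x then 1 else 0) + (if (F j).Adj v x then 1 else 0) := by
    intro j x hx
    unfold dg
    rw [hsplit, Finset.sum_eq_zero (s := W), (F j).adj_comm x u, (F j).adj_comm x v]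
    · rfl
    · intro y hy
      rw [if_neg (hnoW j x hx y hy)]
  have hdw2 : ∀ j, ∀ x ∈ W, dg (F j) x ≤ 2 := by
    intro j x hx
    rw [hdw j x hx]
    split_ifs <;> omega
  have hT : ∀ j, ∑ x, dg (F j) x = 2 * (A j + B j + I j) := by
    intro j
    rw [hsplit, hdu, hdv, Finset.sum_congr rfl (hdw j), Finset.sum_add_distrib]
    show A j + I j + (B j + I j) + (A j + B j) = _
    ring
  have hTe : ∀ i j, A i + B i + I i = A j + B j + I j := by
    intro i j
    obtain ⟨φ⟩ := hiso i j
    have e1 : ∑ x, dg (F j) x = ∑ x, dg (F i) x := by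
      rw [← φ.toEquiv.sum_comp (fun x => dg (F j) x)]
      exact Finset.sum_congr rfl fun x _ => dg_iso φ x
    rw [hT, hT] at e1
    omega
  have hbig : ∀ i x, 3 ≤ dg (F i) x → x = u ∨ x = v := by
    intro i x h
    by_contra hcon
    push Not at hcon
    have h1 := hdw2 i x ((hmemW x).2 ⟨hcon.2, hcon.1⟩)
    omega
  have key1 : ∀ a j, a ≠ j → I a = 1 → ¬ (3 ≤ A a + I a ∧ 3 ≤ B a + I a) := by
    rintro a j haj hIa ⟨h1, h2⟩
    have hadjuv : (F a).Adj u v := by
      by_contra hh
      have : I a = 0 := if_neg hh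
      omega
    obtain ⟨φ⟩ := hiso a j
    have hφ : (F j).Adj (φ u) (φ v) := φ.map_adj_iff.2 hadjuv
    have e1 : 3 ≤ dg (F j) (φ u) := by rw [dg_iso, hdu]; exact h1
    have e2 : 3 ≤ dg (F j) (φ v) := by rw [dg_iso, hdv]; exact h2
    have hne : φ u ≠ φ v := hφ.ne
    have h3 : (F j).Adj u v := by
      rcases hbig j _ e1 with g1 | g1
      · rcases hbig j _ e2 with g2 | g2
        · exact absurd (g1.trans g2.symm) hne
        · rw [g1, g2] at hφ
          exact hφ
      · rcases hbig j _ e2 with g2 | g2
        · rw [g1, g2] at hφ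
          exact hφ.symm
        · exact absurd (g1.trans g2.symm) hne
    exact hdis a j haj u v hadjuv h3
  have key2 : ∀ a j : Fin 3, 3 ≤ A a + I a → (A j + I j = A a + I a ∨ B j + I j = A a + I a) := by
    intro a j h
    obtain ⟨φ⟩ := hiso a j
    have e1 : dg (F j) (φ u) = A a + I a := by rw [dg_iso, hdu]
    rcases hbig j (φ u) (by omega) with g | g
    · left
      rw [g, hdu] at e1
      exact e1
    · right
      rw [g, hdv] at e1
      exact e1
  have key3 : ∀ a j : Fin 3, 3 ≤ B a + I a → (A j + I j = B a + I a ∨ B j + I j = B a + I a) := by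
    intro a j h
    obtain ⟨φ⟩ := hiso a j
    have e1 : dg (F j) (φ v) = B a + I a := by rw [dg_iso, hdv]
    rcases hbig j (φ v) (by omega) with g | g
    · left
      rw [g, hdu] at e1
      exact e1
    · right
      rw [g, hdv] at e1
      exact e1
  have t01 := hTe 0 1
  have t02 := hTe 0 2
  have hI3 : I 0 = 1 ∨ I 1 = 1 ∨ I 2 = 1 := by omega
  rcases hI3 with h | h | h
  · have q1 := key1 0 1 (by decide) h
    have q2 := key2 0 1
    have q3 := key2 0 2
    have q4 := key3 0 1
    have q5 := key3 0 2
    omega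
  · have q1 := key1 1 0 (by decide) h
    have q2 := key2 1 0
    have q3 := key2 1 2
    have q4 := key3 1 0
    have q5 := key3 1 2
    omega
  · have q1 := key1 2 0 (by decide) h
    have q2 := key2 2 0
    have q3 := key2 2 1
    have q4 := key3 2 0
    have q5 := key3 2 1
    omega

/-- `K(1,1,m)` with `m ≥ 7` has no isomorphic factorisation into three factors. -/
theorem not_div (n : Fin 3 → ℕ) (h0 : n 0 = 1) (h1 : n 1 = 1) (h2 : 7 ≤ n 2)
    (h3 : n 2 % 3 = 1) : ¬ Divisible (K n) 3 := by
  rintro ⟨F, hF1, hF2, hF3⟩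
  let u : Σ i : Fin 3, Fin (n i) := ⟨0, ⟨0, by omega⟩⟩
  let v : Σ i : Fin 3, Fin (n i) := ⟨1, ⟨0, by omega⟩⟩
  have huv : u ≠ v := by
    intro h
    have h' : (0 : Fin 3) = 1 := congrArg Sigma.fst h
    exact absurd h' (by decide)
  have htri : ∀ x : Σ i : Fin 3, Fin (n i), (x.1 = 0 ∧ x = u) ∨ (x.1 = 1 ∧ x = v) ∨ x.1 = 2 := by
    rintro ⟨i, a⟩
    match i, a with
    | 0, a =>
      left
      refine ⟨rfl, ?_⟩
      have h6 : (a : ℕ) < n 0 := a.2
      have ha : a = (⟨0, by omega⟩ : Fin (n 0)) := by
        apply Fin.ext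
        show (a : ℕ) = 0
        omega
      rw [ha]
    | 1, a =>
      right
      left
      refine ⟨rfl, ?_⟩
      have h6 : (a : ℕ) < n 1 := a.2
      have ha : a = (⟨0, by omega⟩ : Fin (n 1)) := by
        apply Fin.ext
        show (a : ℕ) = 0
        omega
      rw [ha]
    | 2, a =>
      right
      right
      rfl
  have hKadj : ∀ x y, (K n).Adj x y ↔ x.1 ≠ y.1 := by
    intro x y
    simp [K, completeMultipartiteGraph]
  refine core u v huv (n 2 / 3) (by omega) ?_ F ?_ ?_ hF3
  · rw [Fintype.card_sigma, Fin.sum_univ_three]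
    simp only [Fintype.card_fin]
    omega
  · intro x y
    have e1 : (∃ j, (F j).Adj x y) ↔ (K n).Adj x y := by
      have := hF1 s(x, y)
      simp only [mem_edgeSet] at this
      exact this.symm
    rw [e1, hKadj]
    constructor
    · intro h
      refine ⟨fun h' => h (congrArg Sigma.fst h'), ?_⟩
      rcases htri x with g | g | g
      · exact Or.inl g.2
      · exact Or.inr (Or.inl g.2)
      · rcases htri y with g' | g' | g'
        · exact Or.inr (Or.inr (Or.inl g'.2))
        · exact Or.inr (Or.inr (Or.inr g'.2))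
        · exact absurd (g.trans g'.symm) h
    · rintro ⟨hne, h⟩ heq
      have hu : ∀ z : Σ i : Fin 3, Fin (n i), z.1 = 0 → z = u := by
        intro z hz
        rcases htri z with g | g | g
        · exact g.2
        · rw [hz] at g
          exact absurd g.1 (by decide)
        · rw [hz] at g
          exact absurd g (by decide)
      have hv : ∀ z : Σ i : Fin 3, Fin (n i), z.1 = 1 → z = v := by
        intro z hz
        rcases htri z with g | g | g
        · rw [hz] at g
          exact absurd g.1 (by decide)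
        · exact g.2
        · rw [hz] at g
          exact absurd g (by decide)
      have hu1 : u.1 = 0 := rfl
      have hv1 : v.1 = 1 := rfl
      rcases h with rfl | rfl | rfl | rfl
      · exact hne (hu y (by rw [← heq])).symm
      · exact hne (hv y (by rw [← heq])).symm
      · exact hne (hu x (by rw [heq]))
      · exact hne (hv x (by rw [heq]))
  · intro i j hij x y h1 h2
    have hd := hF2 i j hij
    exact Set.disjoint_left.1 hd ((mem_edgeSet (F i)).2 h1) ((mem_edgeSet (F j)).2 h2)


/-- **Main theorem.** The case `t = 3`: for a complete tripartite graph `K(n₀, n₁, n₂)` with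
nonempty parts the Divisibility Condition suffices for `t = 3` except exactly when two parts have
one vertex and the third has `m ≥ 7` vertices with `m ≡ 1 (mod 3)`. -/
theorem result : ∀ n : Fin 3 → ℕ, (∀ i, 1 ≤ n i) →
    (Suffices n 3 ↔ ¬ ∃ i, 7 ≤ n i ∧ n i % 3 = 1 ∧ ∀ j, j ≠ i → n j = 1) := by
  intro n hn
  constructor
  · rintro hs ⟨i, h7, h1, hj⟩
    have hq : 3 ∣ (K n).edgeSet.ncard := by
      rw [card_edges]
      fin_cases i
      · have e1 : n 1 = 1 := hj 1 (by decide)
        have e2 : n 2 = 1 := hj 2 (by decide)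
        have h1' : n 0 % 3 = 1 := h1
        rw [e1, e2]
        omega
      · have e1 : n 0 = 1 := hj 0 (by decide)
        have e2 : n 2 = 1 := hj 2 (by decide)
        have h1' : n 1 % 3 = 1 := h1
        rw [e1, e2]
        omega
      · have e1 : n 0 = 1 := hj 0 (by decide)
        have e2 : n 1 = 1 := hj 1 (by decide)
        have h1' : n 2 % 3 = 1 := h1
        rw [e1, e2]
        omega
    have hdiv := hs hq
    -- move the large part to the last place
    obtain ⟨s, hsi, hs2⟩ : ∃ s : Fin 3 → Fin 3, Function.Injective s ∧ s 2 = i := by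
      revert i
      intro i _ _ _
      fin_cases i
      · exact ⟨![1, 2, 0], by decide, rfl⟩
      · exact ⟨![0, 2, 1], by decide, rfl⟩
      · exact ⟨![0, 1, 2], by decide, rfl⟩
    have hdiv' : Divisible (K fun i => n (s i)) 3 := by
      let σ : Fin 3 ≃ Fin 3 := Equiv.ofBijective s (Finite.injective_iff_bijective.1 hsi)
      have e : (K fun i => n (s i)) ≃g K n := by
        refine ⟨Equiv.sigmaCongrLeft (β := fun i => Fin (n i)) σ, ?_⟩
        intro u v
        obtain ⟨i, x⟩ := u
        obtain ⟨j, y⟩ := v
        change s i ≠ s j ↔ i ≠ j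
        exact not_congr hsi.eq_iff
      exact divisible_of_iso e.symm hdiv
    refine not_div (fun i => n (s i)) ?_ ?_ ?_ ?_ hdiv'
    · exact hj _ (by rw [← hs2]; exact fun h => absurd (hsi h) (by decide))
    · exact hj _ (by rw [← hs2]; exact fun h => absurd (hsi h) (by decide))
    · show 7 ≤ n (s 2)
      rw [hs2]; exact h7
    · show n (s 2) % 3 = 1
      rw [hs2]; exact h1
  · exact suff n hn

end Pool.Agent.Results.MP_351560_co.ThreeFactors
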